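import Mathlib
import Pool.Agent.TP975.LR.Lh4

/-!
The variance of the sums of the Liouville function over all short windows, at the values of almost all polynomials.
-/

set_option autoImplicit false

namespace Pool.Agent.Results.MP_0575cc_nt.VarianceGenericPolynomials

open Finset

/-- the Liouville function on the integers, `lam (-m) = lam m`, `lam 0 = 0` -/
noncomputable def lam (m : ℤ) : ℝ := if m = 0 then 0 else (-1) ^ ArithmeticFunction.cardFactors m.natAbs

/-- the value at `t` of the polynomial with the coefficients `a 0, ..., a d` -/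
def value {d : ℕ} (a : Fin (d + 1) → ℤ) (t : ℤ) : ℤ := ∑ c, a c * t ^ (c : ℕ)

/-- the polynomials of degree at most `d` with coefficients in `[-H, H]` -/
noncomputable def box (d H : ℕ) : Finset (Fin (d + 1) → ℤ) := Fintype.piFinset fun _ => Icc (-(H : ℤ)) H

/-- the sum of `lam (f (n))` over the window `x < n ≤ x + h` -/
noncomputable def M {d : ℕ} (f : Fin (d + 1) → ℤ) (x h : ℕ) : ℝ := ∑ n ∈ Ioc x (x + h), lam (value f (n : ℤ))

open Classical in
/-- For almost all polynomials `f` of degree at most `d`, the sum of `M f x h ^ 2` over `Y ≤ x < X` is `h (X - Y)` with an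
error of at most `h X / log ^ η H`, for ALL window lengths `h ≥ 1` and ALL `Y ≤ X` with `h log ^ ε H ≤ X ≤ log ^ A H`. -/
theorem result (d A : ℕ) (hd : 2 ≤ d) (ε : ℝ) (hε : 0 < ε) :
    ∃ η : ℝ, 0 < η ∧ ∃ H₀ : ℕ, ∀ H : ℕ, H₀ ≤ H →
    (((box d H).filter (fun f => ∃ Y X h : ℕ, Y ≤ X ∧ 1 ≤ h ∧ (X : ℝ) ≤ Real.log H ^ A ∧ (h : ℝ) * Real.log H ^ ε ≤ X ∧
      h * X / Real.log H ^ η < |∑ x ∈ Ico Y X, M f x h ^ 2 - h * ((X : ℝ) - Y)|)).card : ℝ) ≤
      (box d H).card / Real.log H ^ η := by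
  obtain ⟨η, hη, H0, h0⟩ := Pool.Agent.TP975.LR.all_var2 Pool.Agent.TP975.LR.lamI Pool.Agent.TP975.LR.winB_lamI
    (fun v hv => by
      unfold Pool.Agent.TP975.LR.lamI
      rw [if_neg hv]
      exact neg_one_pow_eq_or ℝ _) Pool.Agent.TP975.LR.lamI_abs d A hd ε hε
  refine ⟨η, hη, H0, fun H hH => ?_⟩
  obtain ⟨Bad, _, hB, hall⟩ := h0 H hH
  refine le_trans ?_ hB
  have hsub : (box d H).filter (fun f => ∃ Y X h : ℕ, Y ≤ X ∧ 1 ≤ h ∧ (X : ℝ) ≤ Real.log H ^ A ∧
      (h : ℝ) * Real.log H ^ ε ≤ X ∧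
      h * X / Real.log H ^ η < |∑ x ∈ Ico Y X, M f x h ^ 2 - h * ((X : ℝ) - Y)|) ⊆ Bad := by
    intro f hf
    rw [mem_filter] at hf
    obtain ⟨hf1, Y, X, h, hY, hh, hX, hc, hlt⟩ := hf
    by_contra hbad
    exact absurd (hall f hf1 hbad Y X h hY hh hX hc) (not_le.2 hlt)
  exact_mod_cast card_le_card hsub

end Pool.Agent.Results.MP_0575cc_nt.VarianceGenericPolynomials
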